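import Mathlib
import Pool.Agent.H39.Blocks2

set_option autoImplicit false

namespace Pool.Agent.Results.MP_26ac3f_lc.PisotInter

open Filter Topology

/-- A Pisot number: a real algebraic integer greater than one all of whose other complex
conjugates have absolute value less than one. -/
def IsPisot (θ : ℝ) : Prop :=
  IsIntegral ℤ θ ∧ 1 < θ ∧ ∀ z ∈ (minpoly ℚ θ).aroots ℂ, z ≠ (θ : ℂ) → ‖z‖ < 1

/-- Uniform distribution modulo one. -/
def UnifDist (x : ℕ → ℝ) : Prop :=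
  ∀ a b : ℝ, 0 ≤ a → a ≤ b → b ≤ 1 →
    Tendsto (fun N : ℕ => (((Finset.range N).filter
      (fun n => a ≤ Int.fract (x n) ∧ Int.fract (x n) < b)).card : ℝ) / (N : ℝ))
      atTop (𝓝 (b - a))

/-- A countable intersection of countable unions of closed sets. -/
def IsPi03 {X : Type} [TopologicalSpace X] (A : Set X) : Prop :=
  ∃ F : ℕ → ℕ → Set X, (∀ i j, IsClosed (F i j)) ∧ A = ⋂ i, ⋃ j, F i j

/-- The set of reals normal with respect to every `α` with `|α|` a Pisot number. -/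
def I : Set ℝ := {ξ | ∀ α : ℝ, IsPisot |α| → UnifDist fun n => ξ * α ^ n}

theorem result :
    IsPi03 I ∧
    ∀ (Y : Type) [TopologicalSpace Y] [PolishSpace Y],
      TopologicalSpace.IsTopologicalBasis {s : Set Y | IsClopen s} →
      ∀ B : Set Y, IsPi03 B → ∃ f : Y → ℝ, Continuous f ∧ B = f ⁻¹' I := by
  have h1 : {α : ℝ | IsPisot |α|}.Countable := by
    refine (Algebraic.countable ℤ ℝ).mono fun α hα => ?_
    have h2 : IsAlgebraic ℤ |α| := hα.1.isAlgebraic
    rcases abs_choice α with h | h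
    · rwa [h] at h2
    · rw [h] at h2
      simpa using h2.neg
  have h2 : {α : ℝ | IsPisot |α|}.Nonempty := by
    refine ⟨2, ?_⟩
    have h3 : |(2 : ℝ)| = algebraMap ℚ ℝ 2 := by simp
    refine ⟨?_, by norm_num, fun z hz h => ?_⟩
    · rw [show |(2 : ℝ)| = algebraMap ℤ ℝ 2 by simp]
      exact isIntegral_algebraMap
    · rw [h3, minpoly.eq_X_sub_C, Polynomial.aroots_X_sub_C, Multiset.mem_singleton] at hz
      exact absurd (by simp [hz]) h
  obtain ⟨α, hα⟩ := h1.exists_eq_range h2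
  have h3 : ∀ i, IsPisot |α i| := fun i => by
    have : α i ∈ {α : ℝ | IsPisot |α|} := hα ▸ Set.mem_range_self i
    exact this
  have h4 : I = {ξ | ∀ i, Pool.Agent.H39.Equi.UD fun n => ξ * α i ^ n} := by
    ext ξ
    refine ⟨fun h i => h _ (h3 i), fun h β hβ => ?_⟩
    have : β ∈ Set.range α := hα ▸ hβ
    obtain ⟨i, rfl⟩ := this
    exact h i
  rw [h4]
  refine ⟨Pool.Agent.H39.Equi.pi03 (x := fun i (ξ : ℝ) n => ξ * α i ^ n)
    fun _ n => by fun_prop, ?_⟩
  rintro Y _ _ hY B ⟨G, hG, rfl⟩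
  obtain ⟨x, h5, h6⟩ := Pool.Agent.H39.Red03.reduce hY G hG
  obtain ⟨f, h7, h8⟩ := Pool.Agent.H39.Blocks.hard (fun i => (h3 i).2.1) x h5
  refine ⟨f, h7, ?_⟩
  ext y
  rw [h6, ← h8]
  rfl

end Pool.Agent.Results.MP_26ac3f_lc.PisotInter
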